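import Pool.Agent.H66.SYM.Basic

/-!
Products of Schur functions are integer combinations of Schur functions.
-/

namespace Pool.H66.SYM

open Filter Topology

noncomputable section

/-- The alternant. -/
def SPN_alt {m : ℕ} (c : Fin m → ℂ) (γ : Fin m → ℕ) : ℂ :=
  (Matrix.of fun i j : Fin m => c i ^ γ j).det

/-- The exponents `m - 1 - j`. -/
def SPN_del {m : ℕ} (j : Fin m) : ℕ := m - 1 - (j : ℕ)

theorem SPN_alt_perm {m : ℕ} (c : Fin m → ℂ) (γ : Fin m → ℕ) (σ : Equiv.Perm (Fin m)) :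
    SPN_alt c (γ ∘ σ) = (Equiv.Perm.sign σ : ℤ) * SPN_alt c γ := by
  unfold SPN_alt
  rw [← Matrix.det_permute' σ (Matrix.of fun i j : Fin m => c i ^ γ j)]
  rfl

theorem SPN_sign_sq {m : ℕ} (σ : Equiv.Perm (Fin m)) :
    (((Equiv.Perm.sign σ : ℤˣ) : ℤ) : ℂ) * (((Equiv.Perm.sign σ : ℤˣ) : ℤ) : ℂ) = 1 := by
  rw [← Int.cast_mul]
  have : ((Equiv.Perm.sign σ : ℤˣ) : ℤ) * ((Equiv.Perm.sign σ : ℤˣ) : ℤ) = 1 := by
    rw [← Units.val_mul, Int.units_mul_self]
    rfl
  rw [this]
  norm_num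

theorem SPN_alt_zero {m : ℕ} (c : Fin m → ℂ) (γ : Fin m → ℕ) (h : ¬ Function.Injective γ) :
    SPN_alt c γ = 0 := by
  unfold Function.Injective at h
  push Not at h
  obtain ⟨i, j, hij, hne⟩ := h
  unfold SPN_alt
  apply Matrix.det_zero_of_column_eq hne
  intro k
  simp [hij]

theorem SPN_mono {m : ℕ} (g : Fin m → ℕ) (hg : StrictMono g) :
    ∀ d : ℕ, ∀ i j : Fin m, (j : ℕ) = i + d → g i + d ≤ g j := by
  intro d
  induction d with
  | zero =>
    intro i j hij
    have : i = j := Fin.ext (by omega)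
    rw [this]
    omega
  | succ d ih =>
    intro i j hij
    have hlt : (i : ℕ) + d < m := by have := j.2; omega
    have h1 := ih i ⟨i + d, hlt⟩ rfl
    have h2 : g ⟨i + d, hlt⟩ < g j := hg (by
      show (i : ℕ) + d < (j : ℕ)
      omega)
    omega

theorem SPN_sort {m : ℕ} (γ : Fin m → ℕ) (h : Function.Injective γ) :
    ∃ (σ : Equiv.Perm (Fin m)) (nu : Fin m → ℕ), Antitone nu ∧
      γ ∘ σ = fun j => nu j + SPN_del j := by
  set g : Fin m → ℕ := γ ∘ Tuple.sort γ with hg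
  have hmono : StrictMono g :=
    (Tuple.monotone_sort γ).strictMono_of_injective (h.comp (Tuple.sort γ).injective)
  have hge : ∀ i : Fin m, (i : ℕ) ≤ g i := by
    intro i
    have h0 : 0 < m := lt_of_le_of_lt (Nat.zero_le _) i.2
    have := SPN_mono g hmono i ⟨0, h0⟩ i (by simp)
    omega
  refine ⟨Fin.revPerm.trans (Tuple.sort γ), fun j => g (Fin.rev j) - (Fin.rev j : ℕ), ?_, ?_⟩
  · intro i j hij
    show g (Fin.rev j) - (Fin.rev j : ℕ) ≤ g (Fin.rev i) - (Fin.rev i : ℕ)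
    have h1 : ((Fin.rev i : Fin m) : ℕ) = (Fin.rev j : Fin m) + ((j : ℕ) - i) := by
      have h2 : (i : ℕ) ≤ j := hij
      have := i.2
      have := j.2
      rw [Fin.val_rev, Fin.val_rev]
      omega
    have h3 := SPN_mono g hmono _ _ _ h1
    have h4 := hge (Fin.rev j)
    omega
  · funext j
    show g (Fin.rev j) = _
    have h4 := hge (Fin.rev j)
    have h5 : ((Fin.rev j : Fin m) : ℕ) = SPN_del j := by
      rw [Fin.val_rev, SPN_del]
      have := j.2
      omega
    show g (Fin.rev j) = g (Fin.rev j) - (Fin.rev j : ℕ) + SPN_del j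
    omega

theorem SPN_straight {m : ℕ} (γ : Fin m → ℕ) : ∃ (n : ℤ) (nu : Fin m → ℕ),
    (n ≠ 0 → Antitone nu ∧ ∑ j, nu j + ∑ j : Fin m, SPN_del j = ∑ j, γ j) ∧
    ∀ c : Fin m → ℂ, SPN_alt c γ = (n : ℂ) * SPN_alt c fun j => nu j + SPN_del j := by
  by_cases h : Function.Injective γ
  · obtain ⟨σ, nu, hnu, he⟩ := SPN_sort γ h
    refine ⟨Equiv.Perm.sign σ, nu, fun _ => ⟨hnu, ?_⟩, fun c => ?_⟩
    · rw [← Finset.sum_add_distrib]
      have h1 : ∑ j, (γ ∘ σ) j = ∑ j, γ j := Equiv.sum_comp σ γ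
      rw [← h1, he]
    · rw [← he, SPN_alt_perm, ← mul_assoc, SPN_sign_sq, one_mul]
  · exact ⟨0, 0, fun h0 => absurd rfl h0, fun c => by
      rw [SPN_alt_zero c γ h]
      simp⟩

theorem SPN_sym {m : ℕ} (K : (Fin m → ℤ) →₀ ℤ)
    (hK : ∀ (σ : Equiv.Perm (Fin m)) (a : Fin m → ℤ), K (a ∘ σ) = K a)
    (c : Fin m → ℂ) (σ : Equiv.Perm (Fin m)) : ev K (c ∘ σ) = ev K c := by
  unfold ev Finsupp.sum
  apply Finset.sum_equiv (Equiv.arrowCongr σ (Equiv.refl ℤ))
  · intro a
    rw [Finsupp.mem_support_iff, Finsupp.mem_support_iff]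
    have : K ((Equiv.arrowCongr σ (Equiv.refl ℤ)) a) = K a := hK σ.symm a
    rw [this]
  · intro a _
    have h1 : K ((Equiv.arrowCongr σ (Equiv.refl ℤ)) a) = K a := hK σ.symm a
    rw [h1]
    beta_reduce
    congr 1
    unfold mon
    apply Fintype.prod_equiv σ
    intro j
    show c (σ j) ^ a j = c (σ j) ^ (a (σ.symm (σ j)))
    rw [Equiv.symm_apply_apply]

theorem SPN_mul {m : ℕ} (K : (Fin m → ℤ) →₀ ℤ)
    (hK : ∀ (σ : Equiv.Perm (Fin m)) (a : Fin m → ℤ), K (a ∘ σ) = K a)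
    (hpos : ∀ a ∈ K.support, ∀ j, 0 ≤ a j) (c : Fin m → ℂ) (β : Fin m → ℕ) :
    ev K c * SPN_alt c β = K.sum fun a n => (n : ℂ) * SPN_alt c fun j => (a j).toNat + β j := by
  unfold SPN_alt
  simp only [Matrix.det_apply', Matrix.of_apply]
  have h1 : ∀ σ : Equiv.Perm (Fin m), ev K c * ∏ i, c (σ i) ^ β i
      = K.sum fun a n => (n : ℂ) * ∏ i, c (σ i) ^ ((a i).toNat + β i) := by
    intro σ
    rw [← SPN_sym K hK c σ]
    unfold ev Finsupp.sum
    rw [Finset.sum_mul]
    apply Finset.sum_congr rfl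
    intro a ha
    rw [mul_assoc]
    congr 1
    unfold mon
    rw [← Finset.prod_mul_distrib]
    apply Finset.prod_congr rfl
    intro j _
    rw [pow_add]
    congr 1
    have h2 : ((a j).toNat : ℤ) = a j := Int.toNat_of_nonneg (hpos a ha j)
    show c (σ j) ^ a j = _
    conv_lhs => rw [← h2]
    rw [zpow_natCast]
  rw [Finset.mul_sum]
  have h3 : ∀ σ : Equiv.Perm (Fin m), ev K c * (((Equiv.Perm.sign σ : ℤˣ) : ℤ) * ∏ i, c (σ i) ^ β i)
      = K.sum fun a n => ((Equiv.Perm.sign σ : ℤˣ) : ℤ) *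
        ((n : ℂ) * ∏ i, c (σ i) ^ ((a i).toNat + β i)) := by
    intro σ
    rw [mul_left_comm, h1 σ, Finsupp.mul_sum]
  rw [Finset.sum_congr rfl fun σ _ => h3 σ]
  unfold Finsupp.sum
  rw [Finset.sum_comm]
  apply Finset.sum_congr rfl
  intro a _
  beta_reduce
  rw [Finset.mul_sum]
  apply Finset.sum_congr rfl
  intro σ _
  ring

theorem SPN_inv {m : ℕ} (c : Fin m → ℂ) (hc : ∀ j, c j ≠ 0) (γ γ' : Fin m → ℕ) (M : ℕ)
    (h : ∀ j, γ j + γ' j = M) :
    (∏ j, c j) ^ M * SPN_alt (fun j => (c j)⁻¹) γ = SPN_alt c γ' := by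
  unfold SPN_alt
  rw [← Finset.prod_pow, ← Matrix.det_mul_column (fun i => c i ^ M)]
  congr 1
  ext i j
  simp only [Matrix.of_apply]
  rw [← h j, pow_add, inv_pow]
  have : c i ^ γ j ≠ 0 := pow_ne_zero _ (hc i)
  field_simp

theorem SPN_ne {m : ℕ} (c : Fin m → ℂ) (hc : Function.Injective c) : SPN_alt c SPN_del ≠ 0 := by
  have h1 : SPN_alt c (SPN_del ∘ (Fin.revPerm : Equiv.Perm (Fin m))) ≠ 0 := by
    have h2 : (SPN_del ∘ (Fin.revPerm : Equiv.Perm (Fin m))) = fun j : Fin m => (j : ℕ) := by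
      funext j
      show m - 1 - ((Fin.rev j : Fin m) : ℕ) = j
      rw [Fin.val_rev]
      have := j.2
      omega
    rw [h2]
    exact Matrix.det_vandermonde_ne_zero_iff.2 hc
  rw [SPN_alt_perm] at h1
  exact right_ne_zero_of_mul h1

theorem SPN_cont (hKOS : S_KOS) {m : ℕ} (nu : Fin m → ℕ) (hnu : Antitone nu) (q : ℂ → Fin m → ℂ)
    (hq : ∀ j, ContinuousAt (fun t => q t j) 0) (hq0 : ∀ j, q 0 j ≠ 0) :
    ContinuousAt (fun t => schur nu (Finset.univ.val.map (q t))) 0 := by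
  obtain ⟨K, hK, _⟩ := hKOS m nu hnu
  simp only [hK]
  unfold ev Finsupp.sum mon
  apply tendsto_finsetSum
  intro a _
  apply ContinuousAt.mul continuousAt_const
  apply tendsto_finsetProd
  intro j _
  exact (hq j).zpow₀ _ (Or.inl (hq0 j))

theorem SPN_distinct (hJTB : S_JTB) (m k : ℕ) (mu : Fin m → ℕ) (hmu : ∀ j, mu j ≤ k)
    (c : Fin m → ℂ) (hc : ∀ j, c j ≠ 0) (hinj : Function.Injective c) :
    (∏ j, c j) ^ k * schur mu (Finset.univ.val.map fun j => (c j)⁻¹) =
      schur (fun j => k - mu (Fin.rev j)) (Finset.univ.val.map c) := by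
  have h1 : SPN_alt (fun j => (c j)⁻¹) (fun j => mu j + SPN_del j) =
      schur mu (Finset.univ.val.map fun j => (c j)⁻¹) * SPN_alt (fun j => (c j)⁻¹) SPN_del :=
    hJTB m (fun j => (c j)⁻¹) mu
  have h2 : SPN_alt c (fun j => (k - mu (Fin.rev j)) + SPN_del j) =
      schur (fun j => k - mu (Fin.rev j)) (Finset.univ.val.map c) * SPN_alt c SPN_del :=
    hJTB m c _
  have hrev : ∀ j : Fin m, ((Fin.rev j : Fin m) : ℕ) = m - (j + 1) := fun j => Fin.val_rev j
  have h3 := SPN_inv c hc (fun j => mu j + SPN_del j)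
    ((fun j => (k - mu (Fin.rev j)) + SPN_del j) ∘ (Fin.revPerm : Equiv.Perm (Fin m)))
    (k + (m - 1)) (by
      intro j
      show mu j + (m - 1 - (j : ℕ)) + ((k - mu (Fin.rev (Fin.rev j))) +
        (m - 1 - ((Fin.rev j : Fin m) : ℕ))) = _
      rw [Fin.rev_rev, hrev]
      have := j.2
      have := hmu j
      omega)
  have h4 := SPN_inv c hc SPN_del (SPN_del ∘ (Fin.revPerm : Equiv.Perm (Fin m))) (m - 1) (by
      intro j
      show (m - 1 - (j : ℕ)) + (m - 1 - ((Fin.rev j : Fin m) : ℕ)) = _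
      rw [hrev]
      have := j.2
      omega)
  rw [SPN_alt_perm, h2, h1] at h3
  rw [SPN_alt_perm] at h4
  have h5 : (((Equiv.Perm.sign (Fin.revPerm : Equiv.Perm (Fin m)) : ℤˣ) : ℤ) : ℂ) *
      SPN_alt c SPN_del ≠ 0 := by
    apply mul_ne_zero _ (SPN_ne c hinj)
    intro h0
    have := SPN_sign_sq (Fin.revPerm : Equiv.Perm (Fin m))
    rw [h0, zero_mul] at this
    exact zero_ne_one this
  apply mul_right_cancel₀ h5
  calc (∏ j, c j) ^ k * schur mu (Finset.univ.val.map fun j => (c j)⁻¹) *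
        ((((Equiv.Perm.sign (Fin.revPerm : Equiv.Perm (Fin m)) : ℤˣ) : ℤ) : ℂ) *
          SPN_alt c SPN_del)
      = (∏ j, c j) ^ (k + (m - 1)) * (schur mu (Finset.univ.val.map fun j => (c j)⁻¹) *
        SPN_alt (fun j => (c j)⁻¹) SPN_del) := by
        rw [← h4, pow_add]
        ring
    _ = _ := by
        rw [h3]
        ring

theorem s_SPN (hJTB : S_JTB) (hKOS : S_KOS) : S_SPN := by
  intro m k lam mu hlam hmu
  obtain ⟨hlam1, hlam2⟩ := hlam
  obtain ⟨hmu1, hmu2⟩ := hmu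
  have hmuk : ∀ j, mu j ≤ k := by
    intro j
    rw [← hmu2]
    exact Finset.single_le_sum (f := mu) (fun i _ => Nat.zero_le _) (Finset.mem_univ j)
  set mu' : Fin m → ℕ := fun j => k - mu (Fin.rev j) with hmu'
  have hanti : Antitone mu' := by
    intro i j hij
    show k - mu (Fin.rev j) ≤ k - mu (Fin.rev i)
    have : mu (Fin.rev i) ≤ mu (Fin.rev j) := hmu1 (Fin.rev_le_rev.2 hij)
    omega
  have hsum' : ∑ j, mu' j + k = m * k := by
    have h1 : ∑ j, mu (Fin.rev j) = k := by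
      rw [← hmu2]
      exact Equiv.sum_comp (Fin.revPerm : Equiv.Perm (Fin m)) mu
    calc ∑ j, mu' j + k = ∑ j, mu' j + ∑ j, mu (Fin.rev j) := by rw [h1]
      _ = ∑ j : Fin m, k := by
        rw [← Finset.sum_add_distrib]
        apply Finset.sum_congr rfl
        intro j _
        show k - mu (Fin.rev j) + mu (Fin.rev j) = k
        have := hmuk (Fin.rev j)
        omega
      _ = m * k := by simp
  obtain ⟨K, hK1, hK2, hK3, _⟩ := hKOS m lam hlam1
  choose s nu hs hnu using fun a : Fin m → ℤ =>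
    SPN_straight (fun j => (a j).toNat + (mu' j + SPN_del j))
  set ψ : (Fin m → ℕ) →₀ ℤ := ∑ a ∈ K.support, Finsupp.single (nu a) (K a * s a) with hψ
  have hψsum : ∀ G : (Fin m → ℕ) → ℂ, (ψ.sum fun x n => (n : ℂ) * G x)
      = ∑ a ∈ K.support, (K a : ℂ) * ((s a : ℂ) * G (nu a)) := by
    intro G
    rw [hψ, ← Finsupp.sum_finsetSum_index]
    · apply Finset.sum_congr rfl
      intro a _
      rw [Finsupp.sum_single_index]
      · push_cast
        ring
      · simp
    · intro x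
      simp
    · intro x y z
      push_cast
      ring
  have hsupp : ∀ x ∈ ψ.support, ∃ a ∈ K.support, s a ≠ 0 ∧ nu a = x := by
    intro x hx
    rw [Finsupp.mem_support_iff, hψ, Finsupp.finsetSum_apply] at hx
    obtain ⟨a, ha, hne⟩ := Finset.exists_ne_zero_of_sum_ne_zero hx
    rw [Finsupp.single_apply] at hne
    split_ifs at hne with h1
    · exact ⟨a, ha, fun h0 => hne (by rw [h0, mul_zero]), h1⟩
    · exact absurd rfl hne
  have hpar : ∀ a ∈ K.support, s a ≠ 0 → nu a ∈ Par m (m * k) := by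
    intro a ha h0
    obtain ⟨h1, h2⟩ := hs a h0
    refine ⟨h1, ?_⟩
    rw [Finset.sum_add_distrib, Finset.sum_add_distrib, ← add_assoc] at h2
    have h3 := Nat.add_right_cancel h2
    rw [h3]
    have h4 : ∑ j, (a j).toNat = k := by
      obtain ⟨h5, h6⟩ := hK2 a ha
      have h7 : ((∑ j, (a j).toNat : ℕ) : ℤ) = (k : ℤ) := by
        rw [← hlam2]
        push_cast
        rw [← h6]
        apply Finset.sum_congr rfl
        intro j _
        exact Int.toNat_of_nonneg (h5 j)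
      exact_mod_cast h7
    rw [h4]
    omega
  refine ⟨ψ, ?_, ?_⟩
  · intro x hx
    obtain ⟨a, ha, h0, rfl⟩ := hsupp x hx
    exact hpar a ha h0
  -- distinct numbers
  have hdist : ∀ c : Fin m → ℂ, (∀ j, c j ≠ 0) → Function.Injective c →
      schur lam (Finset.univ.val.map c) * schur mu (Finset.univ.val.map fun j => (c j)⁻¹) =
          ψ.sum fun nu n => (n : ℂ) * (schur nu (Finset.univ.val.map c) *
            (∏ j, c j) ^ (-(k : ℤ))) := by
    intro c hc hinj
    have hprod : (∏ j, c j) ≠ 0 := Finset.prod_ne_zero_iff.2 fun j _ => hc j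
    have h1 := SPN_distinct hJTB m k mu hmuk c hc hinj
    have h2 : schur mu (Finset.univ.val.map fun j => (c j)⁻¹) =
        schur mu' (Finset.univ.val.map c) * (∏ j, c j) ^ (-(k : ℤ)) := by
      rw [← h1, zpow_neg, zpow_natCast]
      field_simp
    have h3 : schur lam (Finset.univ.val.map c) * schur mu' (Finset.univ.val.map c) =
        ψ.sum fun nu n => (n : ℂ) * schur nu (Finset.univ.val.map c) := by
      apply mul_right_cancel₀ (SPN_ne c hinj)
      have h4 : SPN_alt c (fun j => mu' j + SPN_del j) =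
          schur mu' (Finset.univ.val.map c) * SPN_alt c SPN_del := hJTB m c mu'
      rw [mul_assoc, ← h4, hK1, SPN_mul K hK3 (fun a ha => (hK2 a ha).1), hψsum,
        Finset.sum_mul]
      unfold Finsupp.sum
      apply Finset.sum_congr rfl
      intro a _
      have h5 : SPN_alt c (fun j => nu a j + SPN_del j) =
          schur (nu a) (Finset.univ.val.map c) * SPN_alt c SPN_del := hJTB m c (nu a)
      beta_reduce
      rw [hnu a c, h5]
      ring
    rw [h2, ← mul_assoc, h3]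
    unfold Finsupp.sum
    rw [Finset.sum_mul]
    apply Finset.sum_congr rfl
    intro x _
    ring
  intro c hc
  set p : ℂ → Fin m → ℂ := fun t j => c j + t * (j : ℂ) with hp
  have hp0 : p 0 = c := by
    funext j
    simp [hp]
  have hpc : ∀ j, ContinuousAt (fun t => p t j) 0 := by
    intro j
    simp only [hp]
    fun_prop
  have hpne : ∀ j, p 0 j ≠ 0 := fun j => by rw [hp0]; exact hc j
  have hev1 : ∀ᶠ t in 𝓝[≠] (0:ℂ), ∀ j, p t j ≠ 0 := by
    rw [eventually_all]
    intro j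
    exact ((hpc j).eventually_ne (hpne j)).filter_mono nhdsWithin_le_nhds
  have hev2 : ∀ᶠ t in 𝓝[≠] (0:ℂ), ∀ i j, i ≠ j → p t i ≠ p t j := by
    rw [eventually_all]
    intro i
    rw [eventually_all]
    intro j
    by_cases hij : i = j
    · exact Eventually.of_forall fun t h => absurd hij h
    · by_cases hcc : c i = c j
      · filter_upwards [self_mem_nhdsWithin] with t ht _
        intro he
        simp only [hp, hcc] at he
        have h1 : t * (i : ℂ) = t * (j : ℂ) := add_left_cancel he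
        have h2 : ((i : ℕ) : ℂ) = ((j : ℕ) : ℂ) := mul_left_cancel₀ ht h1
        exact hij (Fin.ext (by exact_mod_cast h2))
      · have h1 : ContinuousAt (fun t => p t i - p t j) 0 := (hpc i).sub (hpc j)
        have h2 : p 0 i - p 0 j ≠ 0 := by
          rw [hp0]
          exact sub_ne_zero.2 hcc
        have h3 := (h1.eventually_ne h2).filter_mono (nhdsWithin_le_nhds (s := {(0:ℂ)}ᶜ))
        filter_upwards [h3] with t ht _
        exact sub_ne_zero.1 ht
  have hF1 : ContinuousAt (fun t => schur lam (Finset.univ.val.map (p t)) *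
      schur mu (Finset.univ.val.map fun j => (p t j)⁻¹)) 0 := by
    apply ContinuousAt.mul
    · exact SPN_cont hKOS lam hlam1 p hpc hpne
    · exact SPN_cont hKOS mu hmu1 (fun t j => (p t j)⁻¹)
        (fun j => (hpc j).inv₀ (hpne j)) (fun j => inv_ne_zero (hpne j))
  have hF2 : ContinuousAt (fun t => ψ.sum fun nu n => (n : ℂ) *
      (schur nu (Finset.univ.val.map (p t)) * (∏ j, p t j) ^ (-(k : ℤ)))) 0 := by
    unfold Finsupp.sum
    apply tendsto_finsetSum
    intro x hx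
    obtain ⟨a, ha, h0, rfl⟩ := hsupp x hx
    apply ContinuousAt.mul continuousAt_const
    apply ContinuousAt.mul
    · exact SPN_cont hKOS (nu a) (hpar a ha h0).1 p hpc hpne
    · apply ContinuousAt.zpow₀
      · exact tendsto_finsetProd _ fun j _ => hpc j
      · exact Or.inl (Finset.prod_ne_zero_iff.2 fun j _ => hpne j)
  have hlim1 := hF1.tendsto.mono_left (nhdsWithin_le_nhds (s := {(0:ℂ)}ᶜ))
  have hlim2 := hF2.tendsto.mono_left (nhdsWithin_le_nhds (s := {(0:ℂ)}ᶜ))
  have hev : (fun t => schur lam (Finset.univ.val.map (p t)) *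
      schur mu (Finset.univ.val.map fun j => (p t j)⁻¹)) =ᶠ[𝓝[≠] (0:ℂ)]
      (fun t => ψ.sum fun nu n => (n : ℂ) *
      (schur nu (Finset.univ.val.map (p t)) * (∏ j, p t j) ^ (-(k : ℤ)))) := by
    filter_upwards [hev1, hev2] with t h1 h2
    exact hdist (p t) h1 fun i j hij => by
      by_contra hne
      exact h2 i j hne hij
  have hfin := tendsto_nhds_unique (hlim1.congr' hev) hlim2
  simp only [hp0] at hfin
  exact hfin

end

end Pool.H66.SYM
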